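import Mathlib
import Pool.Agent.Y674.TR.Stm2

/-!
# Project TR, part 2, job TR2-SEP: the square root of the denominator has simple roots
-/

set_option autoImplicit false

namespace Pool.Agent.Y903.TR

open Polynomial Pool.Agent.Y674.TR

theorem nons {A B : ℤ} (hΔ : 4 * A ^ 3 + 27 * B ^ 2 ≠ 0) {x y : ℂ}
    (h : y ^ 2 = x ^ 3 + A * x + B) : (E ℂ A B).Nonsingular x y := by
  rw [← WeierstrassCurve.Affine.equation_iff_nonsingular_of_Δ_ne_zero]
  · rw [WeierstrassCurve.Affine.equation_iff]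
    simp only [E]
    linear_combination h
  · simp only [E, WeierstrassCurve.Δ, WeierstrassCurve.b₂, WeierstrassCurve.b₄,
      WeierstrassCurve.b₆, WeierstrassCurve.b₈]
    intro h0
    apply hΔ
    have h1 : ((4 * A ^ 3 + 27 * B ^ 2 : ℤ) : ℂ) = 0 := by
      push_cast
      linear_combination (-1 / 16) * h0
    exact_mod_cast h1

/-- the `x`-coordinate -/
noncomputable def xc {A B : ℤ} : (E ℂ A B).Point → ℂ
  | .zero => 0
  | .some x _ _ => x

theorem xc_neg {A B : ℤ} (P : (E ℂ A B).Point) : xc (-P) = xc P := by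
  rcases P with _ | ⟨x, y, h⟩
  · rfl
  · rfl

theorem same_x {A B : ℤ} (P P' : (E ℂ A B).Point) (hP : P ≠ 0) (hP' : P' ≠ 0)
    (h : xc P = xc P') : P' = P ∨ P' = -P := by
  rcases P with _ | ⟨x, y, h1⟩
  · exact absurd rfl hP
  rcases P' with _ | ⟨x', y', h2⟩
  · exact absurd rfl hP'
  have hx : x = x' := h
  subst hx
  rcases WeierstrassCurve.Affine.Y_eq_of_X_eq h2.1 h1.1 rfl with h3 | h3
  · left
    subst h3
    rfl
  · right
    subst h3
    rfl

theorem card_two {A B : ℤ} (s : Finset ℂ) (T : ℂ → (E ℂ A B).Point)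
    (hinj : ∀ t ∈ s, ∀ t' ∈ s, T t = T t' → t = t') (h0 : ∀ t ∈ s, T t ≠ 0) (b : ℂ)
    (hb : ∀ t ∈ s, xc (T t) = b) : s.card ≤ 2 := by
  classical
  rcases s.eq_empty_or_nonempty with rfl | ⟨t0, ht0⟩
  · simp
  have hsub : s.image T ⊆ {T t0, -T t0} := by
    intro P hP
    obtain ⟨t, ht, rfl⟩ := Finset.mem_image.1 hP
    rcases same_x (T t0) (T t) (h0 _ ht0) (h0 _ ht) (by rw [hb _ ht0, hb _ ht]) with h | h
    · rw [h]
      exact Finset.mem_insert_self _ _
    · rw [h]
      exact Finset.mem_insert_of_mem (Finset.mem_singleton_self _)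
  calc s.card = (s.image T).card :=
        (Finset.card_image_of_injOn (fun t ht t' ht' h => hinj t ht t' ht' h)).symm
    _ ≤ ({T t0, -T t0} : Finset _).card := Finset.card_le_card hsub
    _ ≤ 2 := Finset.card_le_two

theorem exists_Q (h1 : MULP) {A B : ℤ} (hΔ : 4 * A ^ 3 + 27 * B ^ 2 ≠ 0) {m : ℕ} (hm : 1 ≤ m)
    (x0 t : ℂ) (hD : aeval t (ND A B m).2 ≠ 0)
    (hN : aeval t (ND A B m).1 = x0 * aeval t (ND A B m).2) :
    ∃ Q : (E ℂ A B).Point, Q ≠ 0 ∧ xc Q = t ∧ m • Q ≠ 0 ∧ xc (m • Q) = x0 := by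
  obtain ⟨s, hs⟩ := IsAlgClosed.exists_eq_mul_self (t ^ 3 + A * t + B)
  have hns : (E ℂ A B).Nonsingular t s := nons hΔ (by rw [sq, ← hs])
  rcases h1 ℂ A B hΔ t s hns m hm with ⟨_, _, h⟩ | ⟨_, x, y, h, hQ, hx⟩
  · exact absurd h hD
  · refine ⟨WeierstrassCurve.Affine.Point.some t s hns,
      WeierstrassCurve.Affine.Point.some_ne_zero hns, rfl, ?_, ?_⟩
    · rw [hQ]
      exact WeierstrassCurve.Affine.Point.some_ne_zero h
    · rw [hQ]
      show x = x0
      rw [hN] at hx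
      exact (mul_right_cancel₀ hD hx).symm

theorem exists_Q' (h1 : MULP) {A B : ℤ} (hΔ : 4 * A ^ 3 + 27 * B ^ 2 ≠ 0) {m : ℕ} (hm : 1 ≤ m)
    (x0 t : ℂ) (hD : aeval t (ND A B m).2 ≠ 0)
    (hN : aeval t (ND A B m).1 = x0 * aeval t (ND A B m).2) (P0 : (E ℂ A B).Point)
    (hP0 : P0 ≠ 0) (hx : xc P0 = x0) :
    ∃ Q : (E ℂ A B).Point, Q ≠ 0 ∧ xc Q = t ∧ m • Q = P0 := by
  obtain ⟨Q, hQ0, hQt, hmQ, hmx⟩ := exists_Q h1 hΔ hm x0 t hD hN
  rcases same_x P0 (m • Q) hP0 hmQ (by rw [hx, hmx]) with h | h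
  · exact ⟨Q, hQ0, hQt, h⟩
  · exact ⟨-Q, neg_ne_zero.2 hQ0, by rw [xc_neg, hQt], by rw [neg_nsmul, h, neg_neg]⟩

theorem tors (h1 : MULP) {A B : ℤ} (hΔ : 4 * A ^ 3 + 27 * B ^ 2 ≠ 0) {k : ℕ} (hk : 1 ≤ k)
    (T : (E ℂ A B).Point) (hT : T ≠ 0) (hm : (2 * k + 1) • T = 0) :
    aeval (xc T) (Wp A B k) = 0 := by
  rcases T with _ | ⟨t, s, h⟩
  · exact absurd rfl hT
  rcases h1 ℂ A B hΔ t s h (2 * k + 1) (by omega) with ⟨_, _, h2⟩ | ⟨_, x, y, h', hQ, _⟩
  · rw [ND_odd_snd A B k hk, map_pow] at h2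
    exact pow_eq_zero_iff (two_ne_zero) |>.1 h2
  · exfalso
    rw [hm] at hQ
    exact WeierstrassCurve.Affine.Point.some_ne_zero h' hQ.symm

theorem ev_map (p : ℤ[X]) (t : ℂ) : (p.map (Int.castRingHom ℂ)).eval t = aeval t p := by
  rw [eval_map, aeval_def]
  rfl

/-- a good value -/
theorem good_value {N D : ℂ[X]} (hN : N.Monic) (hdeg : D.natDegree < N.natDegree)
    (hD : D.natDegree ≠ 0) (hcop : IsCoprime N D) :
    ∃ x0 : ℂ, (N - C x0 * D).roots.toFinset.card = N.natDegree := by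
  classical
  have hD0 : D ≠ 0 := by
    rintro rfl
    exact hD natDegree_zero
  have hJ : derivative N * D - N * derivative D ≠ 0 := by
    intro h
    have h2 : D ∣ N * derivative D := ⟨derivative N, by linear_combination -h⟩
    have h3 : D ∣ derivative D := hcop.symm.dvd_of_dvd_mul_left h2
    have h4 : derivative D = 0 := by
      by_contra hne
      have h5 := natDegree_le_of_dvd h3 hne
      have h6 := natDegree_derivative_lt hD
      omega
    exact hD (derivative_eq_zero.1 h4)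
  obtain ⟨x0, hx0⟩ := Infinite.exists_notMem_finset
    ((derivative N * D - N * derivative D).roots.toFinset.image fun t => N.eval t / D.eval t)
  refine ⟨x0, ?_⟩
  have hdeg2 : (C x0 * D).degree < N.degree :=
    degree_lt_degree (lt_of_le_of_lt (natDegree_C_mul_le x0 D) hdeg)
  have hmon : (N - C x0 * D).Monic := hN.sub_of_left hdeg2
  have hnd : (N - C x0 * D).natDegree = N.natDegree :=
    natDegree_eq_of_degree_eq (degree_sub_eq_left_of_degree_lt hdeg2)
  have hnodup : (N - C x0 * D).roots.Nodup := by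
    rw [Multiset.nodup_iff_count_le_one]
    intro t
    rw [count_roots]
    by_contra hcon
    push Not at hcon
    rw [one_lt_rootMultiplicity_iff_isRoot hmon.ne_zero] at hcon
    obtain ⟨h1, h2⟩ := hcon
    rw [IsRoot.def, eval_sub, eval_mul, eval_C] at h1
    rw [IsRoot.def, derivative_sub, derivative_C_mul, eval_sub, eval_mul, eval_C] at h2
    have hDt : D.eval t ≠ 0 := by
      intro h
      obtain ⟨a, b, hab⟩ := hcop
      have h3 := congrArg (eval t) hab
      rw [eval_add, eval_mul, eval_mul, eval_one, h] at h3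
      have h4 : N.eval t = 0 := by
        rw [h] at h1
        linear_combination h1
      rw [h4] at h3
      simp at h3
    apply hx0
    rw [Finset.mem_image]
    refine ⟨t, ?_, ?_⟩
    · rw [Multiset.mem_toFinset, mem_roots hJ, IsRoot.def, eval_sub, eval_mul, eval_mul]
      linear_combination (D.eval t) * h2 - (derivative D).eval t * h1
    · rw [div_eq_iff hDt]
      linear_combination h1
  rw [Multiset.toFinset_card_of_nodup hnodup, ← hnd]
  exact ((IsAlgClosed.splits _).natDegree_eq_card_roots).symm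

theorem sep (h1 : MULP) (h2 : DEG) (h3 : COP) : SEP := by
  intro A B hΔ k hk
  set m := 2 * k + 1 with hm
  have hm1 : 1 ≤ m := by omega
  have hinj : Function.Injective (Int.castRingHom ℂ) := by
    intro a b hab
    have hab' : (a : ℂ) = (b : ℂ) := hab
    exact_mod_cast hab'
  obtain ⟨⟨dN, dN2, dD, -⟩, -⟩ := h2 A B m hm1
  have dW := (h2 A B k hk).2
  have hmm : m ^ 2 = 2 * (2 * k ^ 2 + 2 * k) + 1 := by
    rw [hm]
    ring
  have hk2 : 0 < 2 * k ^ 2 + 2 * k := by positivity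
  have hN : ((ND A B m).1.map (Int.castRingHom ℂ)).Monic := dN.map _
  have hNd : ((ND A B m).1.map (Int.castRingHom ℂ)).natDegree = m ^ 2 := by
    rw [natDegree_map_eq_of_injective hinj, dN2]
  have hDd : ((ND A B m).2.map (Int.castRingHom ℂ)).natDegree = m ^ 2 - 1 := by
    rw [natDegree_map_eq_of_injective hinj, dD]
  have hWd : ((Wp A B k).map (Int.castRingHom ℂ)).natDegree = 2 * k ^ 2 + 2 * k := by
    rw [natDegree_map_eq_of_injective hinj, dW]
  have hcomp : (algebraMap ℚ ℂ).comp (Int.castRingHom ℚ) = Int.castRingHom ℂ :=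
    Subsingleton.elim _ _
  have hcop : IsCoprime ((ND A B m).1.map (Int.castRingHom ℂ))
      ((ND A B m).2.map (Int.castRingHom ℂ)) := by
    have h4 := (h3 A B hΔ m hm1).map (Polynomial.mapRingHom (algebraMap ℚ ℂ))
    rw [coe_mapRingHom, map_map, map_map, hcomp] at h4
    exact h4
  obtain ⟨x0, hx0⟩ := good_value hN (by rw [hNd, hDd]; omega) (by rw [hDd]; omega) hcop
  rw [hNd] at hx0
  have hroot : ∀ t ∈ ((ND A B m).1.map (Int.castRingHom ℂ) -
      C x0 * (ND A B m).2.map (Int.castRingHom ℂ)).roots.toFinset,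
      aeval t (ND A B m).2 ≠ 0 ∧ aeval t (ND A B m).1 = x0 * aeval t (ND A B m).2 := by
    intro t ht
    rw [Multiset.mem_toFinset] at ht
    have h4 := isRoot_of_mem_roots ht
    rw [IsRoot.def, eval_sub, eval_mul, eval_C, ev_map, ev_map] at h4
    refine ⟨?_, by linear_combination h4⟩
    intro h
    obtain ⟨a, b, hab⟩ := hcop
    have h5 := congrArg (eval t) hab
    rw [eval_add, eval_mul, eval_mul, eval_one, ev_map, ev_map, h] at h5
    have h6 : aeval t (ND A B m).1 = 0 := by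
      rw [h] at h4
      linear_combination h4
    rw [h6] at h5
    simp at h5
  set Rts := ((ND A B m).1.map (Int.castRingHom ℂ) -
      C x0 * (ND A B m).2.map (Int.castRingHom ℂ)).roots.toFinset with hRts
  obtain ⟨t1, ht1⟩ : Rts.Nonempty := by
    rw [← Finset.card_pos, hx0]
    positivity
  obtain ⟨Q1, -, -, hQ1, hQ1x⟩ := exists_Q h1 hΔ hm1 x0 t1 (hroot t1 ht1).1 (hroot t1 ht1).2
  have hex : ∀ t, t ∈ Rts → ∃ Q : (E ℂ A B).Point, Q ≠ 0 ∧ xc Q = t ∧ m • Q = m • Q1 :=
    fun t ht => exists_Q' h1 hΔ hm1 x0 t (hroot t ht).1 (hroot t ht).2 _ hQ1 hQ1x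
  choose! Qf hQf using hex
  have hQinj : ∀ t ∈ Rts, ∀ t' ∈ Rts, Qf t = Qf t' → t = t' := by
    intro t ht t' ht' h
    rw [← (hQf t ht).2.1, ← (hQf t' ht').2.1, h]
  have hT0 : ∀ t ∈ Rts.erase t1, Qf t - Qf t1 ≠ 0 := by
    intro t ht h
    rw [Finset.mem_erase] at ht
    exact ht.1 (hQinj t ht.2 t1 ht1 (sub_eq_zero.1 h))
  have hmaps : ∀ t ∈ Rts.erase t1, xc (Qf t - Qf t1) ∈
      ((Wp A B k).map (Int.castRingHom ℂ)).roots.toFinset := by
    intro t ht
    have ht' := (Finset.mem_erase.1 ht).2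
    have h4 : m • (Qf t - Qf t1) = 0 := by
      rw [nsmul_sub, (hQf t ht').2.2, (hQf t1 ht1).2.2, sub_self]
    have h5 := tors h1 hΔ hk _ (hT0 t ht) h4
    have hW0 : (Wp A B k).map (Int.castRingHom ℂ) ≠ 0 := by
      intro h
      rw [h, natDegree_zero] at hWd
      omega
    rw [Multiset.mem_toFinset, mem_roots hW0, IsRoot.def, ev_map]
    exact h5
  have hcard := Finset.card_le_mul_card_image_of_maps_to hmaps 2 (by
    intro b _
    refine card_two _ (fun t => Qf t - Qf t1) ?_ ?_ b ?_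
    · intro t ht t' ht' h
      rw [Finset.mem_filter, Finset.mem_erase] at ht ht'
      exact hQinj t ht.1.2 t' ht'.1.2 (sub_left_injective h)
    · intro t ht
      exact hT0 t (Finset.mem_filter.1 ht).1
    · intro t ht
      exact (Finset.mem_filter.1 ht).2)
  rw [Finset.card_erase_of_mem ht1, hx0, hmm] at hcard
  have hle1 : ((Wp A B k).map (Int.castRingHom ℂ)).roots.toFinset.card ≤
      Multiset.card ((Wp A B k).map (Int.castRingHom ℂ)).roots := Multiset.toFinset_card_le _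
  have hle2 := card_roots' ((Wp A B k).map (Int.castRingHom ℂ))
  rw [hWd] at hle2
  have hW0 : (Wp A B k).map (Int.castRingHom ℂ) ≠ 0 := by
    intro h
    rw [h, natDegree_zero] at hWd
    omega
  have hnodup : ((Wp A B k).map (Int.castRingHom ℂ)).roots.Nodup := by
    rw [← Multiset.toFinset_card_eq_card_iff_nodup]
    omega
  have hsep : ((Wp A B k).map (Int.castRingHom ℂ)).Separable :=
    (nodup_roots_iff_of_splits hW0 (IsAlgClosed.splits _)).1 hnodup
  rw [← hcomp, ← map_map] at hsep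
  exact (separable_map (algebraMap ℚ ℂ)).1 hsep

end Pool.Agent.Y903.TR
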